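import Pool.Agent.KS6_55.FJT.Main
import Pool.Agent.KS6_55.FJS.Rep

/-!
The representation of a group acting on a tree, for families of abelian subgroups of the stabilizers.
-/

set_option autoImplicit false

namespace Pool.Agent.KS6_55.FJS

open Pool.Agent.KS6_55.FJ SimpleGraph
open Pool.Agent.KS6_55.FJT hiding Mo pr pr_sh pr_ac conjRep conjRep_injective Fb rK base_iff fixK labelV pointV idxK matchV rK_one rK_sh exists_swap ac_trans exists_F

section rep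

variable {G V : Type} [Group G] [MulAction G V] {T : SimpleGraph V}

/-- elements of the kernel of the stabilizer act by translations -/
theorem ac_trans {N : V → Subgroup G} (hN : Fm N) {I : Type} (r : G)
    (z : Bs (Mo N) I × DD) (h : r ∈ N (pr z)) : ∃ δ : DD, ac r z = sh δ z := by
  refine ⟨ev z.1.2.2.1 (co r z.1.2.1), ?_⟩
  unfold ac sh
  rw [(base_iff hN r z).2 h]

/-- the representation -/
theorem exists_F (hT : T.IsTree)
    (hadj : ∀ (g : G) (v w : V), T.Adj v w → T.Adj (g • v) (g • w))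
    (hinv : ∀ (g : G) (v w : V), T.Adj v w → ¬ (g • v = w ∧ g • w = v))
    {N : V → Subgroup G} (hN : Fm N) (hab : ∀ v : V, ∀ a ∈ N v, ∀ b ∈ N v, a * b = b * a)
    (hedge : ∀ v w, T.Adj v w → ∀ x ∈ N v, x • w = w → x ∈ N w) (v₀ : V) :
    ∃ (X : Type) (F : G →* Equiv.Perm (X × DD)) (D : Set (X × DD)),
      (∀ (g : G) (δ : DD) y, F g (sh δ y) = sh δ (F g y)) ∧ (∀ (g : G), ∀ y ∈ D, F g y ∈ D) ∧
      (∀ v : V, ∀ r ∈ N v, ∀ y ∈ D, ∃ δ : DD, F r y = sh δ y) ∧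
      ∀ g : G, g • v₀ = v₀ → (∀ y ∈ D, ∃ δ : DD, F g y = sh δ y) → g ∈ N v₀ := by
  classical
  let Z : Type := ((o : Ob G V) × (G ⧸ Mo N o) × Ch (Mo N o)) × DD
  let I : Type := ℕ → Z
  let o₀ : Ob G V := Quotient.mk _ v₀
  let i₀ : I := fun _ => (⟨o₀, ((1 : G) : G ⧸ Mo N o₀), 0⟩, 0)
  let e : Bs (Mo N) I × DD → I := fun y n =>
    Nat.casesOn n (⟨y.1.1, y.1.2.1, y.1.2.2.1⟩, y.2) y.1.2.2.2
  have he : Function.Injective e := by
    rintro ⟨⟨o, x, α, i⟩, d⟩ ⟨⟨o', x', α', i'⟩, d'⟩ h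
    have h0 : ((⟨o, x, α⟩, d) : Z) = (⟨o', x', α'⟩, d') := congrFun h 0
    have hi : i = i' := funext fun n => congrFun h (n + 1)
    have h1 := congrArg Prod.fst h0
    have h2 : d = d' := congrArg Prod.snd h0
    simp only [Sigma.mk.injEq] at h1
    obtain ⟨rfl, h1⟩ := h1
    have h3 := eq_of_heq h1
    simp only [Prod.mk.injEq] at h3
    obtain ⟨rfl, rfl⟩ := h3
    rw [hi, h2]
  let X : Type := Bs (Mo N) I
  let τ : G →* Equiv.Perm (X × DD) := ta (Mo N) I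
  have hτsh : ∀ g, τ g ∈ Eqv X := fun g δ y => ac_sh g δ y
  let Pd : V → V → Equiv.Perm (X × DD) → Prop := fun v w σ => σ * σ = 1 ∧
      (∀ k : G, k • v = v → k • w = w → τ k * σ = σ * τ k) ∧
      (∀ (δ : DD) y, σ (sh δ y) = sh δ (σ y)) ∧ (∀ y, pr y = v → pr (σ y) = w) ∧
      ∀ y, pr y = w → pr (σ y) = v
  obtain ⟨t, ht1, ht2, ht3⟩ := exists_family (T := T) τ Pd hinv hadj
    (fun v w h => exists_swap hN hab e he v w h.ne fun x h1 h2 =>
      ⟨fun h3 => hedge v w h x h3 h2, fun h3 => hedge w v h.symm x h3 h1⟩)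
    (fun v w σ ⟨h1, h2, h3, h4, h5⟩ => ⟨h1, fun k a b => h2 k b a, h3, h5, h4⟩)
    (by
      rintro v w σ ⟨h1, h2, h3, h4, h5⟩ g
      refine ⟨?_, ?_, ?_, ?_, ?_⟩
      · have e1 : τ g * σ * (τ g)⁻¹ * (τ g * σ * (τ g)⁻¹) = τ g * (σ * σ) * (τ g)⁻¹ := by group
        rw [e1, h1]
        group
      · intro k hk1 hk2
        have h6 := h2 (g⁻¹ * k * g) (by rw [mul_smul, mul_smul, hk1, inv_smul_smul])
          (by rw [mul_smul, mul_smul, hk2, inv_smul_smul])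
        rw [map_mul, map_mul, map_inv] at h6
        have e1 : τ k * (τ g * σ * (τ g)⁻¹) =
          τ g * (((τ g)⁻¹ * τ k * τ g) * σ) * (τ g)⁻¹ := by group
        rw [e1, h6]
        group
      · exact (Eqv X).mul_mem ((Eqv X).mul_mem (hτsh g) h3) ((Eqv X).inv_mem (hτsh g))
      · intro y hy
        show pr (ac g (σ ((τ g)⁻¹ y))) = g • w
        rw [pr_ac hN, h4]
        rw [← map_inv]
        show pr (ac g⁻¹ y) = v
        rw [pr_ac hN, hy, inv_smul_smul]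
      · intro y hy
        show pr (ac g (σ ((τ g)⁻¹ y))) = g • v
        rw [pr_ac hN, h5]
        rw [← map_inv]
        show pr (ac g⁻¹ y) = w
        rw [pr_ac hN, hy, inv_smul_smul])
    (fun v w σ h => h.2.1)
  obtain ⟨U, hU⟩ := exists_pot hT v₀ t (fun v w h => by rw [ht2 v w h, (ht1 v w h).1])
  have hP : ∀ (g : G) (v w : V), (U (g • v))⁻¹ * U (g • w) =
      τ g * ((U v)⁻¹ * U w) * (τ g)⁻¹ := by
    intro g v w
    have := pot_equiv hT t U hU (fun x => g • x) (fun x y h => hadj g x y h)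
      (MulAut.conj (τ g)).toMonoidHom (fun x y h => ht3 g x y h) v w
    exact this
  have hPprop : ∀ v w : V, (U v)⁻¹ * U w ∈ Eqv X ∧
      ∀ y, pr y = w → pr (((U v)⁻¹ * U w) y) = v := by
    intro v w
    obtain ⟨p⟩ := hT.connected.preconnected v w
    induction p with
    | nil =>
      rw [inv_mul_cancel]
      exact ⟨(Eqv X).one_mem, fun y hy => hy⟩
    | cons h p ih =>
      rename_i x y z
      have e1 : (U x)⁻¹ * U z = t x y * ((U y)⁻¹ * U z) := by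
        rw [hU x y h]
        group
      rw [e1]
      refine ⟨(Eqv X).mul_mem (ht1 x y h).2.2.1 ih.1, fun u hu => ?_⟩
      rw [Equiv.Perm.mul_apply]
      exact (ht1 x y h).2.2.2.2 _ (ih.2 u hu)
  let F : G →* Equiv.Perm (X × DD) := MonoidHom.mk' (fun g => (U v₀)⁻¹ * U (g • v₀) * τ g) (by
    intro g h
    have h1 := hP g v₀ (h • v₀)
    rw [← mul_smul] at h1
    have e1 : (U v₀)⁻¹ * U ((g * h) • v₀) =
        ((U v₀)⁻¹ * U (g • v₀)) * ((U (g • v₀))⁻¹ * U ((g * h) • v₀)) := by group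
    show (U v₀)⁻¹ * U ((g * h) • v₀) * τ (g * h) =
      (U v₀)⁻¹ * U (g • v₀) * τ g * ((U v₀)⁻¹ * U (h • v₀) * τ h)
    rw [e1, h1, map_mul]
    group)
  have hF : ∀ g, F g = (U v₀)⁻¹ * U (g • v₀) * τ g := fun g => rfl
  refine ⟨X, F, {y | pr y = v₀}, ?_, ?_, ?_, ?_⟩
  · intro g
    rw [hF]
    exact (Eqv X).mul_mem (hPprop _ _).1 (hτsh g)
  · intro g y hy
    rw [hF, Equiv.Perm.mul_apply]
    apply (hPprop _ _).2
    show pr (ac g y) = _
    rw [pr_ac hN, show pr y = v₀ from hy]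
  · intro v r hr y hy
    have hv : r • v = v := hN.le v hr
    have h1 := hP r v v₀
    rw [hv] at h1
    have e1 : F r = (U v₀)⁻¹ * U v * τ r * ((U v)⁻¹ * U v₀) := by
      have e2 : (U v₀)⁻¹ * U (r • v₀) = ((U v₀)⁻¹ * U v) * ((U v)⁻¹ * U (r • v₀)) := by group
      rw [hF, e2, h1]
      group
    let z := ((U v)⁻¹ * U v₀) y
    have hz : pr z = v := (hPprop v v₀).2 y hy
    obtain ⟨δ, hδ⟩ := ac_trans hN r z (by rw [hz]; exact hr)
    refine ⟨δ, ?_⟩
    have e3 : F r y = ((U v₀)⁻¹ * U v) (ac r z) := by rw [e1]; rfl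
    rw [e3, hδ, (hPprop v₀ v).1 δ z]
    congr 1
    show (((U v₀)⁻¹ * U v) * ((U v)⁻¹ * U v₀)) y = y
    have e4 : ((U v₀)⁻¹ * U v) * ((U v)⁻¹ * U v₀) = 1 := by group
    rw [e4]
    rfl
  · intro g hg h
    let K : Subgroup G := MulAction.stabilizer G v₀
    obtain ⟨y, _, _⟩ := pointV (I := I) hN hab K le_rfl ((N v₀).subgroupOf K) rfl 0 i₀
    obtain ⟨δ, h2⟩ := h y.1 y.2
    rw [hF, hg, inv_mul_cancel, one_mul] at h2
    have h5 : ac g y.1 = sh δ y.1 := h2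
    have h3 : (⟨y.1.1.1, g • y.1.1.2.1, y.1.1.2.2.1, y.1.1.2.2.2⟩ : X) = y.1.1 :=
      congrArg Prod.fst h5
    have h4 := (base_iff hN g y.1).1 (congrArg Prod.fst (eq_of_heq (Sigma.ext_iff.1 h3).2))
    rwa [y.2] at h4

end rep

end Pool.Agent.KS6_55.FJS
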