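import Pool.Agent.KS6_55.FJT.Inv
import Pool.Agent.KS6_55.FJS.Fam

/-!
Groups acting on trees with soluble kernels, with compatible series, on the stabilizers.
-/

set_option autoImplicit false

namespace Pool.Agent.KS6_55.FJS

open Pool.Agent.KS6_55.FJ SimpleGraph
open Pool.Agent.Y110.FJ
open Pool.Agent.KS6_55.FJT (QV qm qm_eq QT QT_isTree QT_adj QT_inv smul_qm Z2 gen gen_sq gen_ne
  exists_pot pot_inv exists_parity tree_inj tree_ab)

variable {C : ∀ (G : Type) [Group G], Prop}

/-- compatible series of the kernels of the stabilizers -/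
structure Chn {G Q V : Type} [Group G] [Group Q] [MulAction G V] (T : SimpleGraph V) (π : G →* Q)
    (n : ℕ) (s : ℕ → V → Subgroup G) : Prop where
  le : ∀ i v, s i v ≤ MulAction.stabilizer G v
  conj : ∀ i (g : G) v x, x ∈ s i v → g * x * g⁻¹ ∈ s i (g • v)
  dec : ∀ i v, s (i + 1) v ≤ s i v
  comm : ∀ i, i < n → ∀ v, ∀ x ∈ s i v, ∀ y ∈ s i v, x * y * x⁻¹ * y⁻¹ ∈ s (i + 1) v
  edge : ∀ i v w, T.Adj v w → ∀ x ∈ s i v, x • w = w → x ∈ s i w
  bot : ∀ v, s n v = ⊥
  ker : ∀ v (x : G), x • v = v → (π x = 1 ↔ x ∈ s 0 v)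

section edge

variable {G V : Type} [Group G] [MulAction G V] {T : SimpleGraph V}

/-- the quotient has no multiple edges -/
theorem no_multi (S : Set G) (hT : T.IsTree)
    (hadj : ∀ (g : G) (v w : V), T.Adj v w → T.Adj (g • v) (g • w))
    (hS : ∀ s ∈ S, ∃ v : V, s • v = v) (v w : V) (hvw : T.Adj v w) (hne : qm S v ≠ qm S w)
    (r : G) (hr : r ∈ Subgroup.normalClosure S) (h : T.Adj v (r • w)) :
    ∃ q ∈ Subgroup.normalClosure S, q • v = v ∧ q • w = r • w := by
  classical
  let Pr : V → V → Prop := fun x y => ∃ q ∈ Subgroup.normalClosure S,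
    (q • v = x ∧ q • w = y) ∨ (q • v = y ∧ q • w = x)
  have hPs : ∀ x y, Pr x y ↔ Pr y x := by
    intro x y
    constructor
    · rintro ⟨q, hq, h⟩
      exact ⟨q, hq, h.symm⟩
    · rintro ⟨q, hq, h⟩
      exact ⟨q, hq, h.symm⟩
  have hPm : ∀ s ∈ Subgroup.normalClosure S, ∀ x y, Pr x y → Pr (s • x) (s • y) := by
    rintro s hs x y ⟨q, hq, h⟩
    refine ⟨s * q, Subgroup.mul_mem _ hs hq, ?_⟩
    rcases h with ⟨h, h'⟩ | ⟨h, h'⟩
    · exact Or.inl ⟨by rw [mul_smul, h], by rw [mul_smul, h']⟩
    · exact Or.inr ⟨by rw [mul_smul, h], by rw [mul_smul, h']⟩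
  have hPi : ∀ s ∈ Subgroup.normalClosure S, ∀ x y, Pr (s • x) (s • y) ↔ Pr x y := by
    intro s hs x y
    refine ⟨fun h => ?_, hPm s hs x y⟩
    have := hPm s⁻¹ (Subgroup.inv_mem _ hs) _ _ h
    rwa [inv_smul_smul, inv_smul_smul] at this
  let t : V → V → Z2 := fun x y => if Pr x y then gen else 1
  have ht : ∀ v w, T.Adj v w → t v w * t w v = 1 := by
    intro v w _
    have e : t w v = t v w := by
      show (if _ then _ else _) = (if _ then _ else _)
      rw [if_congr (hPs w v) rfl rfl]
    rw [e]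
    show (if _ then _ else _) * (if _ then _ else _) = _
    split_ifs
    · exact gen_sq
    · rfl
  obtain ⟨U, hU⟩ := exists_pot hT v t ht
  have hinvU := pot_inv hT hadj S hS t (by
    intro r hr v w _
    show (if _ then _ else _) = (if _ then _ else _)
    rw [if_congr (hPi r hr v w) rfl rfl]) U hU
  have e1 : U w = U v * gen := by
    rw [hU v w hvw]
    congr 1
    exact if_pos ⟨1, Subgroup.one_mem _, Or.inl ⟨one_smul _ _, one_smul _ _⟩⟩
  have e2 := hU _ _ h
  rw [hinvU r hr, e1] at e2
  have e3 : Pr v (r • w) := by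
    by_contra hn
    have h3 : t v (r • w) = 1 := if_neg hn
    rw [h3, mul_one] at e2
    exact gen_ne (mul_eq_left.1 e2)
  obtain ⟨q, hq, h | h⟩ := e3
  · exact ⟨q, hq, h⟩
  · exact absurd ((qm_eq S).2 ⟨q, hq, h.2⟩) hne

end edge

/-- **compatible series** (actions without inversions) -/
theorem chain_ab (hC : ClosedE C) (hm : AbCyc C) (n : ℕ) :
    ∀ {G Q V : Type} [Group G] [Group Q] [MulAction G V] {T : SimpleGraph V} (π : G →* Q)
      (s : ℕ → V → Subgroup G), T.IsTree →
      (∀ (g : G) (v w : V), T.Adj v w → T.Adj (g • v) (g • w)) →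
      (∀ (g : G) (v w : V), T.Adj v w → ¬ (g • v = w ∧ g • w = v)) → C Q →
      Chn T π n s → C G := by
  induction n with
  | zero =>
    intro G Q V _ _ _ T π s hT hadj hinv hQ hs
    refine tree_inj hC π hT hadj hinv (fun g v hv hg => ?_) hQ
    have h1 := (hs.ker v g hv).1 hg
    rw [hs.bot v] at h1
    exact Subgroup.mem_bot.1 h1
  | succ n ih =>
    intro G Q V _ _ _ T π s hT hadj hinv hQ hs
    have hFm : Fm (s n) := ⟨hs.le n, hs.conj n⟩
    have hab : ∀ v : V, ∀ a ∈ s n v, ∀ b ∈ s n v, a * b = b * a := by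
      intro v a ha b hb
      have h1 := hs.comm n (Nat.lt_succ_self n) v a ha b hb
      rw [hs.bot v, Subgroup.mem_bot] at h1
      have h2 : a * b * a⁻¹ = b := mul_inv_eq_one.1 h1
      exact mul_inv_eq_iff_eq_mul.1 h2
    let S : Set G := {x | ∃ v, x ∈ s n v}
    have hS : ∀ x ∈ S, ∃ v : V, x • v = v := fun x ⟨v, hx⟩ => ⟨v, hs.le n v hx⟩
    let R : Subgroup G := Subgroup.normalClosure S
    have hdec : ∀ i j v, i ≤ j → s j v ≤ s i v := fun i j v h =>
      antitone_nat_of_succ_le (f := fun i => s i v) (fun k => hs.dec k v) h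
    have hRπ : R ≤ π.ker := Subgroup.normalClosure_le_normal (by
      rintro x ⟨v, hx⟩
      exact (hs.ker v x (hs.le n v hx)).2 (hdec 0 n v (Nat.zero_le n) hx))
    -- the stabilizers in `R`
    have hRs : ∀ (v : V) (x : G), x ∈ R → x • v = v → x ∈ s n v := by
      intro v₀ x hx hxv
      obtain ⟨X, F, D, hF1, hF2, hF3, hF5⟩ := exists_F hT hadj hinv hFm hab (hs.edge n) v₀
      let A : Subgroup G :=
        { carrier := {r | ∀ y ∈ D, ∃ δ : DD, F r y = sh δ y}
          mul_mem' := by
            intro a b ha hb y hy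
            obtain ⟨δ, hδ⟩ := hb y hy
            obtain ⟨ε, hε⟩ := ha y hy
            refine ⟨ε + δ, ?_⟩
            rw [map_mul, Equiv.Perm.mul_apply, hδ, hF1, hε, sh_sh]
          one_mem' := fun y _ => ⟨0, by
            rw [map_one]
            unfold sh
            rw [add_zero]
            rfl⟩
          inv_mem' := by
            intro a ha y hy
            obtain ⟨δ, hδ⟩ := ha y hy
            refine ⟨-δ, ?_⟩
            rw [map_inv, Equiv.Perm.inv_eq_iff_eq, hF1, hδ, sh_sh]
            unfold sh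
            rw [add_neg_cancel, add_zero] }
      have hA : A.Normal := ⟨fun a ha g y hy => by
        obtain ⟨δ, hδ⟩ := ha (F g⁻¹ y) (hF2 _ _ hy)
        refine ⟨δ, ?_⟩
        rw [map_mul, map_mul, Equiv.Perm.mul_apply, Equiv.Perm.mul_apply, hδ, hF1,
          ← Equiv.Perm.mul_apply, ← map_mul, mul_inv_cancel, map_one]
        rfl⟩
      have hRA : R ≤ A := Subgroup.normalClosure_le_normal (by
        rintro x ⟨v, hv⟩
        exact hF3 v x hv)
      exact hF5 x hxv (hRA hx)
    -- the quotient by `R`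
    have hCR : C (G ⧸ R) := by
      have hker : R ≤ (MulAction.toPermHom G (QV S V)).ker := by
        intro r hr
        show MulAction.toPermHom G (QV S V) r = 1
        ext a
        induction a using Quotient.inductionOn with
        | h v => exact (qm_eq S).2 ⟨r, hr, rfl⟩
      letI : MulAction (G ⧸ R) (QV S V) := MulAction.compHom (QV S V)
        (QuotientGroup.lift R (MulAction.toPermHom G (QV S V)) hker)
      have hsm : ∀ (g : G) (a : QV S V), ((g : G ⧸ R)) • a = g • a := fun g a => rfl
      let s' : ℕ → QV S V → Subgroup (G ⧸ R) := fun i a => (s i a.out).map (QuotientGroup.mk' R)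
      have hs' : ∀ i (v : V) (x : G ⧸ R), x ∈ s' i (qm S v) ↔ ∃ y ∈ s i v, (y : G ⧸ R) = x := by
        intro i v x
        obtain ⟨r, hr, hrv⟩ := (qm_eq S (v := (qm S v).out) (w := v)).1 (Quotient.out_eq _)
        have hr1 : ((r : G) : G ⧸ R) = 1 := (QuotientGroup.eq_one_iff r).2 hr
        constructor
        · rintro ⟨y, hy, rfl⟩
          refine ⟨r⁻¹ * y * r⁻¹⁻¹, ?_, ?_⟩
          · have h1 := hs.conj i r⁻¹ _ y hy
            rwa [← hrv, inv_smul_smul] at h1
          · rw [inv_inv, QuotientGroup.mk_mul, QuotientGroup.mk_mul, QuotientGroup.mk_inv, hr1,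
              inv_one, one_mul, mul_one]
            rfl
        · rintro ⟨y, hy, rfl⟩
          refine ⟨r * y * r⁻¹, ?_, ?_⟩
          · have h1 := hs.conj i r v y hy
            rw [hrv] at h1
            exact h1
          · show ((r * y * r⁻¹ : G) : G ⧸ R) = _
            rw [QuotientGroup.mk_mul, QuotientGroup.mk_mul, QuotientGroup.mk_inv, hr1, inv_one,
              one_mul, mul_one]
      refine ih (QuotientGroup.lift R π hRπ) s' (QT_isTree S hT hadj hS) ?_ ?_ hQ
        ⟨?_, ?_, ?_, ?_, ?_, ?_, ?_⟩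
      · intro x a b h
        obtain ⟨g, rfl⟩ := QuotientGroup.mk_surjective x
        rw [hsm, hsm]
        exact QT_adj S hadj g a b h
      · intro x a b h
        obtain ⟨g, rfl⟩ := QuotientGroup.mk_surjective x
        rw [hsm, hsm]
        exact QT_inv S hT hadj hinv hS g a b h
      · intro i a x hx
        induction a using Quotient.inductionOn with
        | h v =>
          obtain ⟨y, hy, rfl⟩ := (hs' i v x).1 hx
          show qm S (y • v) = qm S v
          rw [show y • v = v from hs.le i v hy]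
      · intro i g a x hx
        induction a using Quotient.inductionOn with
        | h v =>
          obtain ⟨g, rfl⟩ := QuotientGroup.mk_surjective g
          obtain ⟨y, hy, rfl⟩ := (hs' i v x).1 hx
          exact (hs' i (g • v) _).2 ⟨g * y * g⁻¹, hs.conj i g v y hy, rfl⟩
      · intro i a x hx
        induction a using Quotient.inductionOn with
        | h v =>
          obtain ⟨y, hy, rfl⟩ := (hs' _ v x).1 hx
          exact (hs' i v _).2 ⟨y, hs.dec i v hy, rfl⟩
      · intro i hi a x hx y hy
        induction a using Quotient.inductionOn with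
        | h v =>
          obtain ⟨x₁, hx₁, rfl⟩ := (hs' _ v x).1 hx
          obtain ⟨y₁, hy₁, rfl⟩ := (hs' _ v y).1 hy
          exact (hs' _ v _).2 ⟨_, hs.comm i (Nat.lt_succ_of_lt hi) v x₁ hx₁ y₁ hy₁, rfl⟩
      · rintro i a b ⟨hne, v, w, hvw, rfl, rfl⟩ x₀ hx₀ hxb
        obtain ⟨x, hx, rfl⟩ := (hs' _ v x₀).1 hx₀
        by_cases hi : i ≤ n
        · have hxv : x • v = v := hs.le i v hx
          have h1 : qm S (x • w) = qm S w := hxb
          obtain ⟨r, hr, h2⟩ := (qm_eq S).1 h1
          have h3 : T.Adj v (r • w) := by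
            have := hadj x v w hvw
            rwa [hxv, ← h2] at this
          obtain ⟨q, hq, hqv, hqw⟩ := no_multi S hT hadj hS v w hvw hne r hr h3
          have hq1 : ((q : G) : G ⧸ R) = 1 := (QuotientGroup.eq_one_iff q).2 hq
          have hqs : q ∈ s i v := hdec i n v hi (hRs v q hq hqv)
          refine (hs' _ w _).2 ⟨q⁻¹ * x, hs.edge i v w hvw _
            ((s i v).mul_mem ((s i v).inv_mem hqs) hx) ?_, ?_⟩
          · rw [mul_smul, ← h2, ← hqw, inv_smul_smul]
          · rw [QuotientGroup.mk_mul, QuotientGroup.mk_inv, hq1, inv_one, one_mul]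
        · have h1 : s i v ≤ ⊥ := by
            rw [← hs.bot v]
            exact hdec _ _ v (by omega)
          have h2 : x = 1 := Subgroup.mem_bot.1 (h1 hx)
          rw [h2]
          exact Subgroup.one_mem _
      · intro a
        rw [eq_bot_iff]
        rintro _ ⟨y, hy, rfl⟩
        rw [Subgroup.mem_bot]
        exact (QuotientGroup.eq_one_iff y).2 (Subgroup.subset_normalClosure ⟨_, hy⟩)
      · intro a x hxa
        induction a using Quotient.inductionOn with
        | h v =>
          obtain ⟨g, rfl⟩ := QuotientGroup.mk_surjective x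
          have h1 : qm S (g • v) = qm S v := hxa
          obtain ⟨r, hr, h2⟩ := (qm_eq S).1 h1
          have hr1 : ((r : G) : G ⧸ R) = 1 := (QuotientGroup.eq_one_iff r).2 hr
          have h3 : (r⁻¹ * g) • v = v := by rw [mul_smul, ← h2, inv_smul_smul]
          have h4 : (((r⁻¹ * g : G)) : G ⧸ R) = (g : G ⧸ R) := by
            rw [QuotientGroup.mk_mul, QuotientGroup.mk_inv, hr1, inv_one, one_mul]
          have h5 : QuotientGroup.lift R π hRπ (g : G ⧸ R) = π (r⁻¹ * g) := by
            rw [← h4]
            rfl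
          have h6 := hs' 0 v (g : G ⧸ R)
          constructor
          · intro h7
            rw [h5] at h7
            exact h6.2 ⟨_, (hs.ker v _ h3).1 h7, h4⟩
          · intro h7
            obtain ⟨y, hy, h8⟩ := h6.1 h7
            rw [← h8]
            exact (hs.ker v y (hs.le 0 v hy)).2 hy
    refine tree_ab hC hm (QuotientGroup.mk' R) hT hadj hinv hCR ?_
    intro v a b ha hb h1 h2
    exact hab v a (hRs v a ((QuotientGroup.eq_one_iff a).1 h1) ha) b
      (hRs v b ((QuotientGroup.eq_one_iff b).1 h2) hb)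

/-- **compatible series** (possibly with inversions) -/
theorem chain_all (hC : ClosedE C) (hm : AbCyc C) (n : ℕ) {G Q V : Type} [Group G] [Group Q]
    [MulAction G V] {T : SimpleGraph V} (π : G →* Q) (s : ℕ → V → Subgroup G) (hT : T.IsTree)
    (hadj : ∀ (g : G) (v w : V), T.Adj v w → T.Adj (g • v) (g • w)) (hQ : C Q)
    (hs : Chn T π n s) : C G := by
  obtain ⟨χ, hχ⟩ := exists_parity hT hadj
  have h1 : C χ.ker := by
    refine chain_ab hC hm n (π.comp χ.ker.subtype) (fun i v => (s i v).subgroupOf χ.ker) hT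
      (fun g v w h => hadj g v w h) ?_ hQ ⟨?_, ?_, ?_, ?_, ?_, ?_, ?_⟩
    · rintro g v w h ⟨h1, h2⟩
      exact hχ g v w h h1 h2 g.2
    · intro i v x hx
      exact hs.le i v hx
    · intro i g v x hx
      exact hs.conj i g v x hx
    · intro i v x hx
      exact hs.dec i v hx
    · intro i hi v x hx y hy
      exact hs.comm i hi v x hx y hy
    · intro i v w h x hx hxw
      exact hs.edge i v w h x hx hxw
    · intro v
      rw [hs.bot v]
      exact Subgroup.bot_subgroupOf _
    · intro v x hx
      exact hs.ker v x hx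
  exact hC.base.finiteIndex G χ.ker inferInstance h1

end Pool.Agent.KS6_55.FJS
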